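import Mathlib
import Pool.Agent.Work.MP_0532f7_lc.GenDefs
import Pool.Agent.Work.MP_0532f7_lc.GMain4

/-!
Relative to a generic oracle no proof system is polynomially bounded, but the existence of an
optimal proof system is unchanged.
-/

namespace Pool.Agent.Results.MP_0532f7_lc.GenericOracle

open Pool.Agent.Work.MP_0532f7_lc

/-- For a comeager set of oracles `R`: no proof system relative to `R` is polynomially bounded, and
there is an optimal proof system relative to `R` if and only if there is an optimal Cook-Reckhow
proof system (without oracle). -/
theorem result : ∀ᶠ R in residual (List Bool → Bool),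
    (¬ ∃ f, BoundedRel R f) ∧ ((∃ f, OptimalRel R f) ↔ ∃ f, Optimal f) :=
  generic_main

end Pool.Agent.Results.MP_0532f7_lc.GenericOracle
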