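import Mathlib
import Pool.Agent.Work.MP_0532f7_lc.OracleDefs
import Pool.Agent.Work.MP_0532f7_lc.PP.Defs
import Pool.Agent.Work.MP_0532f7_lc.PP.Fin

/-!
Pudlak's programme relative to a random oracle: no optimal proof systems, no complete disjoint NP
and coNP pairs, no complete TFNP problems, no complete sets for UP.
-/

namespace Pool.Agent.Results.MP_0532f7_lc.PudlakProgramme

open Pool.Agent.Work.MP_0532f7_lc MeasureTheory

/-- For every oracle `A`, for almost every oracle `R`, relative to the join `X` of `A` and `R`: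
(1) no Cook-Reckhow proof system is optimal;
(2) for every `f` computable in polynomial time relative to `X`, all of whose values are
tautologies relative to `X`, there is a map `g` into these tautologies, computable in polynomial
time relative to `A` alone, such that for infinitely many `m` all `f`-proofs of the tautology
`g (1 ^ m)` are longer than `2 ^ m`;
(3) for every disjoint NP-pair `(C, D)` some disjoint NP-pair `(E, F)` of tally sets is not
reducible to `(C, D)`;
(4) for every disjoint coNP-pair `(C, D)` some disjoint coNP-pair `(E, F)` of tally sets is not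
reducible to `(C, D)`;
(5) no problem in TFNP is complete;
(6) for every set `U` in UP some tally set `L` in UP is not many-one reducible to `U`;
(7) some tally set in coNP that is not in NP has a p-optimal proof system. -/
theorem result (A : List Bool → Bool) : ∀ᵐ R ∂randomOracle,
    (¬ ∃ f, OptimalRel (ojoin A R) f) ∧
    (∀ f, PolyTimeRel (ojoin A R) f → Set.range f ⊆ OTAUT (ojoin A R) →
      ∃ g, PolyTimeRel A g ∧ Set.range g ⊆ OTAUT (ojoin A R) ∧
        ∀ m₀, ∃ m, m₀ ≤ m ∧ ∀ w, f w = g (List.replicate m true) → 2 ^ m < w.length) ∧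
    (∀ C D, NPRel (ojoin A R) C → NPRel (ojoin A R) D → Disjoint C D →
      ∃ E F, Tally (E ∪ F) ∧ NPRel (ojoin A R) E ∧ NPRel (ojoin A R) F ∧ Disjoint E F ∧
        ¬ PairRed (ojoin A R) E F C D) ∧
    (∀ C D, CoNPRel (ojoin A R) C → CoNPRel (ojoin A R) D → Disjoint C D →
      ∃ E F, Tally (E ∪ F) ∧ CoNPRel (ojoin A R) E ∧ CoNPRel (ojoin A R) F ∧ Disjoint E F ∧
        ¬ PairRed (ojoin A R) E F C D) ∧
    (∀ T, TFNPRel (ojoin A R) T → ∃ S, TFNPRel (ojoin A R) S ∧ ¬ SearchRed (ojoin A R) S T) ∧
    (∀ U, UPRel (ojoin A R) U → ∃ L, Tally L ∧ UPRel (ojoin A R) L ∧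
      ¬ SetRed (ojoin A R) L U) ∧
    ∃ L, Tally L ∧ CoNPRel (ojoin A R) L ∧ ¬ NPRel (ojoin A R) L ∧
      ∃ f, POptimalForRel (ojoin A R) L f :=
  PP.main A

end Pool.Agent.Results.MP_0532f7_lc.PudlakProgramme
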