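import Mathlib
import Pool.Agent.Work.MP_0532f7_lc.SlDefs
import Pool.Agent.Work.MP_0532f7_lc.SlMain

/-!
The sets of lengths that decide the existence of optimal proof systems.
-/

namespace Pool.Agent.Results.MP_0532f7_lc.SparseLengths

open Pool.Agent.Work.MP_0532f7_lc

/-- There is an optimal Cook-Reckhow system if and only if every nonempty coNP set of tally words
with lengths of the form `2 ^ 2 ^ k` has an optimal proof system. For an arbitrary easy set `S` of
lengths: if `S` is polynomially dense, the same holds with `S`; in this direction relativizing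
arguments can work only for polynomially dense sets `S`, even if the hypothesis is that all coNP
sets of tally words with lengths in `S` are in P; and for no infinite set `S` relativizing
arguments show that all coNP sets of tally words with lengths in `S` have optimal proof systems. -/
theorem result :
    ((∃ f, OptimalFor TAUT f) ↔
      ∀ L ⊆ tal {s | ∃ k, s = 2 ^ 2 ^ k}, L.Nonempty → CoNP L → ∃ f, OptimalFor L f) ∧
    ∀ S : Set ℕ, TallyP S →
      (PolyDense S → ((∃ f, OptimalFor TAUT f) ↔
        ∀ L ⊆ tal S, L.Nonempty → CoNP L → ∃ f, OptimalFor L f)) ∧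
      List.TFAE [PolyDense S,
        ∀ X : List Bool → Bool,
          (∀ L ⊆ tal S, L.Nonempty → CoNPRel X L → ∃ f, OptimalForRel X L f) →
            ∃ f, OptimalForRel X (OTAUT X) f,
        ∀ X : List Bool → Bool, (∀ L ⊆ tal S, CoNPRel X L → PRel X L) →
          ∃ f, OptimalForRel X (OTAUT X) f] ∧
      (S.Infinite → ∃ X : List Bool → Bool, ∃ L ⊆ tal S, L.Nonempty ∧ CoNPRel X L ∧
        ¬ ∃ f, OptimalForRel X L f) :=
  ⟨sl_example, fun _ hS => sl_main hS⟩

end Pool.Agent.Results.MP_0532f7_lc.SparseLengths
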