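import Mathlib
import Pool.Agent.Work.MP_0532f7_lc.TD.Defs
import Pool.Agent.Work.MP_0532f7_lc.TD.Final
import Pool.Agent.Work.MP_0532f7_lc.TP.Defs
import Pool.Agent.Work.MP_0532f7_lc.TP.FinalT
import Pool.Agent.Work.MP_0532f7_lc.TP.Ge
import Pool.Agent.Work.MP_0532f7_lc.TP.Plain

/-!
Tally oracles and four conjectures of Pudlák's programme: optimal proof systems, complete sets for
NP ∩ coNP, complete TFNP problems and complete disjoint coNP-pairs.
-/

namespace Pool.Agent.Results.MP_0532f7_lc.TallyProgramme

open Pool.Agent.Work.MP_0532f7_lc Pool.Agent.Work.MP_0532f7_lc.TP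

/-- Let `A` be any oracle (e.g. the empty one).

(1) NP = coNP relative to `A` iff for every set `T` of numbers there is an optimal proof system
relative to `A ⊕ 1^T`, iff for every `T` there is a complete set for NP ∩ coNP, iff for every `T`
there is a complete TFNP problem, iff for every `T` there is a complete disjoint coNP-pair relative
to `A ⊕ 1^T`. P = NP relative to `A` iff for every `T` there is a p-optimal proof system relative
to `A ⊕ 1^T`.

(2) If NP ≠ coNP relative to `A`, then each of the four sets of the `T` such that relative to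
`A ⊕ 1^T` there is an optimal proof system, a complete set for NP ∩ coNP, a complete TFNP problem,
a complete disjoint coNP-pair is `Σ⁰₄`-complete. If P ≠ NP relative to `A`, then the set of the `T`
with a p-optimal proof system relative to `A ⊕ 1^T` is `Σ⁰₄`-complete.

(3) If NP ≠ coNP relative to `A`, then for every `Σ⁰₄` set `S` there is one continuous map `F` such
that relative to `A ⊕ 1^(F y)` there are a p-optimal proof system and complete objects of all three
kinds if `y` is in `S`, and neither an optimal proof system nor a complete object of any of the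
three kinds if `y` is not in `S`.

(4) For comeager many `T` there is an optimal proof system relative to `A ⊕ 1^T` iff there is one
relative to `A`; and there is an optimal proof system relative to the empty oracle iff there is an
optimal Cook-Reckhow proof system (without oracle). -/
theorem result (A : List Bool → Bool) :
    ((NPeqCoNP A ↔ ∀ T, ∃ f, OptimalRel (ojoin A (tally T)) f) ∧
      (NPeqCoNP A ↔ ∀ T, ∃ L, CompleteNPcoNP (ojoin A (tally T)) L) ∧
      (NPeqCoNP A ↔ ∀ T, ∃ R, CompleteTFNP (ojoin A (tally T)) R) ∧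
      (NPeqCoNP A ↔ ∀ T, ∃ C D, CompleteDisjCoNP (ojoin A (tally T)) C D) ∧
      (PeqNP A ↔ ∀ T, ∃ f, POptimalRel (ojoin A (tally T)) f)) ∧
    (¬ NPeqCoNP A →
      SigmaFourComplete {T | ∃ f, OptimalRel (ojoin A (tally T)) f} ∧
      SigmaFourComplete {T | ∃ L, CompleteNPcoNP (ojoin A (tally T)) L} ∧
      SigmaFourComplete {T | ∃ R, CompleteTFNP (ojoin A (tally T)) R} ∧
      SigmaFourComplete {T | ∃ C D, CompleteDisjCoNP (ojoin A (tally T)) C D}) ∧
    (¬ PeqNP A → SigmaFourComplete {T | ∃ f, POptimalRel (ojoin A (tally T)) f}) ∧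
    (¬ NPeqCoNP A → ∀ S, SigmaSet 3 S → ∃ F : (ℕ → Bool) → ℕ → Bool, Continuous F ∧
      (∀ y ∈ S, (∃ f, POptimalRel (ojoin A (tally (F y))) f) ∧
        (∃ L, CompleteNPcoNP (ojoin A (tally (F y))) L) ∧
        (∃ R, CompleteTFNP (ojoin A (tally (F y))) R) ∧
        ∃ C D, CompleteDisjCoNP (ojoin A (tally (F y))) C D) ∧
      ∀ y ∉ S, (¬ ∃ f, OptimalRel (ojoin A (tally (F y))) f) ∧
        (¬ ∃ L, CompleteNPcoNP (ojoin A (tally (F y))) L) ∧
        (¬ ∃ R, CompleteTFNP (ojoin A (tally (F y))) R) ∧
        ¬ ∃ C D, CompleteDisjCoNP (ojoin A (tally (F y))) C D) ∧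
    (∀ᶠ T in residual (ℕ → Bool),
      ((∃ f, OptimalRel (ojoin A (tally T)) f) ↔ ∃ f, OptimalRel A f)) ∧
    ((∃ f, OptimalRel (fun _ => false) f) ↔ ∃ f, Optimal f) := by
  obtain ⟨⟨h1, h2, h3, h4⟩, h5, h6, h7⟩ := TP.tally_all A
  exact ⟨⟨h1, h2, h3, h4, h7⟩, h5, (TD.dichotomy A).2.2.2.1, h6,
    TP.tally_generic A, TP.empty_plain⟩

end Pool.Agent.Results.MP_0532f7_lc.TallyProgramme
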